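import Pool.Agent.H.MP_656320_nt.Cmp

/-!
# Solutions of the recursion take values of both signs of comparable size
-/

namespace Pool.Agent.H.MP_656320_nt.MC

open Finset Pool.Agent.H.MP_656320_nt

/-- the solution with given initial values -/
private noncomputable def Ma_sol (L C u v : ℝ) : ℕ → ℝ
  | 0 => u
  | 1 => v
  | j + 2 => L * Ma_sol L C u v (j + 1) - C * Ma_sol L C u v j

private theorem Ma_eq {L C : ℝ} {x : ℕ → ℝ} (hx : ∀ j, x (j + 2) = L * x (j + 1) - C * x j) :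
    ∀ j, x j = Ma_sol L C (x 0) (x 1) j ∧ x (j + 1) = Ma_sol L C (x 0) (x 1) (j + 1) := by
  intro j
  induction j with
  | zero => exact ⟨rfl, rfl⟩
  | succ j ih =>
    refine ⟨ih.2, ?_⟩
    show x (j + 2) = L * Ma_sol L C (x 0) (x 1) (j + 1) - C * Ma_sol L C (x 0) (x 1) j
    rw [hx j, ← ih.1, ← ih.2]

private theorem Ma_rec (L C u v : ℝ) (j : ℕ) :
    Ma_sol L C u v (j + 2) = L * Ma_sol L C u v (j + 1) - C * Ma_sol L C u v j := rfl

private theorem Ma_smul (L C u v t : ℝ) : ∀ j, Ma_sol L C (t * u) (t * v) j = t * Ma_sol L C u v j ∧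
    Ma_sol L C (t * u) (t * v) (j + 1) = t * Ma_sol L C u v (j + 1) := by
  intro j
  induction j with
  | zero => exact ⟨rfl, rfl⟩
  | succ j ih =>
    refine ⟨ih.2, ?_⟩
    show Ma_sol L C (t * u) (t * v) (j + 2) = t * Ma_sol L C u v (j + 2)
    rw [Ma_rec, Ma_rec, ih.1, ih.2]
    ring

private theorem Ma_cont (L C : ℝ) : ∀ j, (Continuous fun q : ℝ × ℝ => Ma_sol L C q.1 q.2 j) ∧
    Continuous fun q : ℝ × ℝ => Ma_sol L C q.1 q.2 (j + 1) := by
  intro j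
  induction j with
  | zero => exact ⟨continuous_fst, continuous_snd⟩
  | succ j ih =>
    refine ⟨ih.2, ?_⟩
    show Continuous fun q : ℝ × ℝ =>
      L * Ma_sol L C q.1 q.2 (j + 1) - C * Ma_sol L C q.1 q.2 j
    exact (ih.2.const_mul L).sub (ih.1.const_mul C)

private theorem Ma_half {L C : ℝ} (hC : 0 < C) (hL : L ^ 2 < 4 * C) : ∃ (J : ℕ) (c : ℝ), 0 < c ∧
    ∀ x : ℕ → ℝ, (∀ j, x (j + 2) = L * x (j + 1) - C * x j) →
      0 < x 0 → ∃ j ≤ J, x j ≤ - c * x 0 := by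
  obtain ⟨J, hJ⟩ := flip hC hL
  have hne : (Finset.range (J + 2)).Nonempty := ⟨0, Finset.mem_range.2 (by omega)⟩
  obtain ⟨f, hf⟩ : ∃ f : ℝ × ℝ → ℝ, f = fun q => (Finset.range (J + 2)).inf' hne
    (fun j => Ma_sol L C q.1 q.2 j) := ⟨_, rfl⟩
  have hfc : Continuous f := by
    rw [hf]
    exact Continuous.finset_inf'_apply hne fun j _ => (Ma_cont L C j).1
  obtain ⟨S, hS⟩ : ∃ S : Set (ℝ × ℝ), S = {q | 0 ≤ q.1 ∧ |q.1| + |q.2| = 1} := ⟨_, rfl⟩
  have hSc : IsCompact S := by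
    have h1 : IsClosed S := by
      rw [hS]
      exact (isClosed_le continuous_const continuous_fst).inter
        (isClosed_eq (continuous_fst.abs.add continuous_snd.abs) continuous_const)
    have h2 : S ⊆ Metric.closedBall 0 1 := by
      rw [hS]
      rintro q ⟨-, h3⟩
      rw [mem_closedBall_zero_iff, Prod.norm_def, Real.norm_eq_abs, Real.norm_eq_abs]
      have h4 := abs_nonneg q.1
      have h5 := abs_nonneg q.2
      exact max_le (by linarith) (by linarith)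
    exact (isCompact_closedBall 0 1).of_isClosed_subset h1 h2
  have hneg : ∀ q ∈ S, f q < 0 := by
    rw [hS, hf]
    rintro q ⟨h1, h2⟩
    show (Finset.range (J + 2)).inf' hne (fun j => Ma_sol L C q.1 q.2 j) < 0
    rw [Finset.inf'_lt_iff]
    rcases h1.lt_or_eq with h3 | h3
    · obtain ⟨j, hj, h4⟩ := (hJ (Ma_sol L C q.1 q.2) (Ma_rec L C q.1 q.2)).1 h3
      exact ⟨j, Finset.mem_range.2 (by omega), h4⟩
    · rcases lt_trichotomy q.2 0 with h4 | h4 | h4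
      · exact ⟨1, Finset.mem_range.2 (by omega), h4⟩
      · rw [← h3, h4, abs_zero, add_zero] at h2
        exact absurd h2 zero_ne_one
      · obtain ⟨j, hj, h5⟩ := (hJ (fun j => Ma_sol L C q.1 q.2 (j + 1))
          (fun j => Ma_rec L C q.1 q.2 (j + 1))).1 h4
        exact ⟨j + 1, Finset.mem_range.2 (by omega), h5⟩
  have hSne : S.Nonempty := by
    rw [hS]
    exact ⟨(1, 0), zero_le_one, by simp⟩
  obtain ⟨q₀, hq₀, hmax⟩ := hSc.exists_isMaxOn hSne hfc.continuousOn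
  refine ⟨J + 1, -f q₀, by linarith [hneg q₀ hq₀], fun x hx hx0 => ?_⟩
  obtain ⟨t, ht⟩ : ∃ t, t = |x 0| + |x 1| := ⟨_, rfl⟩
  have hxt : x 0 ≤ t := by
    rw [ht]
    linarith [le_abs_self (x 0), abs_nonneg (x 1)]
  have ht0 : 0 < t := lt_of_lt_of_le hx0 hxt
  have hq : ((x 0 / t, x 1 / t) : ℝ × ℝ) ∈ S := by
    rw [hS]
    refine ⟨by positivity, ?_⟩
    show |x 0 / t| + |x 1 / t| = 1
    rw [abs_div, abs_div, abs_of_pos ht0, ← add_div, ← ht, div_self ht0.ne']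
  have h1 : f (x 0 / t, x 1 / t) ≤ f q₀ := hmax hq
  obtain ⟨j, hj, h2⟩ := Finset.exists_mem_eq_inf' hne
    (fun j => Ma_sol L C (x 0 / t) (x 1 / t) j)
  have h3 : f (x 0 / t, x 1 / t) = Ma_sol L C (x 0 / t) (x 1 / t) j := by
    rw [hf]
    exact h2
  have h4 : x j = t * Ma_sol L C (x 0 / t) (x 1 / t) j := by
    rw [← (Ma_smul L C (x 0 / t) (x 1 / t) t j).1, mul_div_cancel₀ _ ht0.ne',
      mul_div_cancel₀ _ ht0.ne']
    exact (Ma_eq hx j).1
  refine ⟨j, by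
    have := Finset.mem_range.1 hj
    omega, ?_⟩
  rw [h4, ← h3]
  have h5 : t * f (x 0 / t, x 1 / t) ≤ t * f q₀ := mul_le_mul_of_nonneg_left h1 ht0.le
  have h6 : t * f q₀ ≤ x 0 * f q₀ := mul_le_mul_of_nonpos_right hxt (hneg q₀ hq₀).le
  linarith

theorem flip_quant {L C : ℝ} (hC : 0 < C) (hL : L ^ 2 < 4 * C) : ∃ (J : ℕ) (c : ℝ), 0 < c ∧
    ∀ x : ℕ → ℝ, (∀ j, x (j + 2) = L * x (j + 1) - C * x j) →
      (0 < x 0 → ∃ j ≤ J, x j ≤ - c * x 0) ∧ (x 0 < 0 → ∃ j ≤ J, - c * x 0 ≤ x j) := by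
  obtain ⟨J, c, hc, h⟩ := Ma_half hC hL
  refine ⟨J, c, hc, fun x hx => ⟨h x hx, fun h0 => ?_⟩⟩
  obtain ⟨j, hj, h1⟩ := h (fun j => -x j) (fun j => by
    show -x (j + 2) = L * -x (j + 1) - C * -x j
    rw [hx j]
    ring) (by
    show 0 < -x 0
    linarith)
  refine ⟨j, hj, ?_⟩
  have h2 : -x j ≤ -c * -x 0 := h1
  linarith

end Pool.Agent.H.MP_656320_nt.MC
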