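import Pool.Agent.H.MP_656320_nt.Cmp

/-!
# Covering sums
-/

namespace Pool.Agent.H.MP_656320_nt.MC

open Finset Pool.Agent.H.MP_656320_nt

open Classical in
theorem sum_cover {A B : Set ℕ} {m : ℕ → ℕ} (hm : ∀ j, 1 ≤ m j) {J K : ℕ}
    (hK : ∀ j ≤ J, m j ≤ K) {f g : ℕ → ℝ} (hg : ∀ n, 0 ≤ g n)
    (h : ∀ n ∈ A, 1 ≤ n → ∃ j ≤ J, m j * n ∈ B ∧ f n ≤ g (m j * n)) (x : ℕ) :
    ∑ n ∈ Ioc 0 x, (if n ∈ A then f n else 0) ≤
      ((J : ℝ) + 1) * ∑ n ∈ Ioc 0 (K * x), (if n ∈ B then g n else 0) := by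
  have hG : ∀ n, 0 ≤ (if n ∈ B then g n else 0) := by
    intro n
    split_ifs
    · exact hg n
    · exact le_refl 0
  have h1 : ∀ n ∈ Ioc 0 x, (if n ∈ A then f n else 0) ≤
      ∑ j ∈ range (J + 1), (if m j * n ∈ B then g (m j * n) else 0) := by
    intro n hn
    rw [mem_Ioc] at hn
    by_cases hA : n ∈ A
    · rw [if_pos hA]
      obtain ⟨j, hj, hB, hf⟩ := h n hA hn.1
      refine hf.trans ?_
      have h2 := Finset.single_le_sum
        (f := fun j => (if m j * n ∈ B then g (m j * n) else 0))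
        (fun i _ => hG (m i * n)) (mem_range.2 (Nat.lt_succ_of_le hj))
      rwa [if_pos hB] at h2
    · rw [if_neg hA]
      exact Finset.sum_nonneg fun j _ => hG (m j * n)
  refine (Finset.sum_le_sum h1).trans ?_
  rw [Finset.sum_comm]
  have h2 : ∀ j ∈ range (J + 1),
      ∑ n ∈ Ioc 0 x, (if m j * n ∈ B then g (m j * n) else 0) ≤
      ∑ n ∈ Ioc 0 (K * x), (if n ∈ B then g n else 0) := by
    intro j hj
    have hj1 := hm j
    have hj2 := hK j (Nat.lt_succ_iff.1 (mem_range.1 hj))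
    have hinj : Set.InjOn (fun n => m j * n) (Ioc 0 x : Finset ℕ) := by
      intro a _ b _ hab
      exact Nat.eq_of_mul_eq_mul_left (by omega) hab
    have e : ∑ n ∈ Ioc 0 x, (if m j * n ∈ B then g (m j * n) else 0) =
        ∑ n ∈ (Ioc 0 x).image (fun n => m j * n), (if n ∈ B then g n else 0) := by
      rw [Finset.sum_image hinj]
    rw [e]
    refine Finset.sum_le_sum_of_subset_of_nonneg ?_ (fun n _ _ => hG n)
    intro n hn
    rw [Finset.mem_image] at hn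
    obtain ⟨a, ha, rfl⟩ := hn
    rw [mem_Ioc] at ha ⊢
    exact ⟨Nat.mul_pos (by omega) ha.1, Nat.mul_le_mul hj2 ha.2⟩
  refine (Finset.sum_le_sum h2).trans (le_of_eq ?_)
  rw [Finset.sum_const, Finset.card_range, nsmul_eq_mul]
  push_cast
  ring

end Pool.Agent.H.MP_656320_nt.MC
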