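import Pool.Agent.H.MP_656320_nt.MC.Ma
import Pool.Agent.H.MP_656320_nt.MC.Mb
import Pool.Agent.H.MP_656320_nt.Cmq

/-!
# Comparison of the sums over the positive and over the negative coefficients
-/

namespace Pool.Agent.H.MP_656320_nt.MC

open Finset Pool.Agent.H.MP_656320_nt

private theorem Mc_pow {p J : ℕ} (hp : p.Prime) (α : ℝ) {c : ℝ} (hc : 0 < c) : ∃ K : ℕ,
    (J + 1) * p ^ (2 * J) ≤ K ∧ ∀ (j n : ℕ) (u v : ℝ), j ≤ J → 1 ≤ n → 0 ≤ v → c * u ≤ v →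
      u * (n : ℝ) ^ α ≤ K * (v * ((p ^ (2 * j) * n : ℕ) : ℝ) ^ α) := by
  have hp0 : (0 : ℝ) < p := by exact_mod_cast hp.pos
  obtain ⟨M, hM⟩ : ∃ M : ℝ, ∀ j ∈ Finset.range (J + 1), ((p : ℝ) ^ (2 * j)) ^ (-α) ≤ M :=
    ⟨∑ j ∈ Finset.range (J + 1), ((p : ℝ) ^ (2 * j)) ^ (-α), fun j hj =>
      Finset.single_le_sum (f := fun j => ((p : ℝ) ^ (2 * j)) ^ (-α))
        (fun _ _ => by positivity) hj⟩
  refine ⟨(J + 1) * p ^ (2 * J) + ⌈M / c⌉₊, Nat.le_add_right _ _, ?_⟩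
  intro j n u v hj hn hv huv
  have hn0 : (0 : ℝ) < n := by exact_mod_cast hn
  have h1 := hM j (Finset.mem_range.2 (by omega))
  have h2 : M / c ≤ (((J + 1) * p ^ (2 * J) + ⌈M / c⌉₊ : ℕ) : ℝ) := by
    refine (Nat.le_ceil _).trans ?_
    exact_mod_cast Nat.le_add_left _ _
  have h3 : 0 < (n : ℝ) ^ α := Real.rpow_pos_of_pos hn0 α
  have h4 : 0 < ((p : ℝ) ^ (2 * j)) ^ α := by positivity
  have h5 : ((p ^ (2 * j) * n : ℕ) : ℝ) ^ α = ((p : ℝ) ^ (2 * j)) ^ α * (n : ℝ) ^ α := by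
    push_cast
    exact Real.mul_rpow (by positivity) hn0.le
  have h6 : ((p : ℝ) ^ (2 * j)) ^ (-α) * ((p : ℝ) ^ (2 * j)) ^ α = 1 := by
    rw [← Real.rpow_add (by positivity), neg_add_cancel, Real.rpow_zero]
  have h7 : 1 ≤ M * ((p : ℝ) ^ (2 * j)) ^ α := by
    rw [← h6]
    exact mul_le_mul_of_nonneg_right h1 h4.le
  have h8 : u ≤ v / c := by
    rw [le_div_iff₀ hc]
    linarith
  rw [h5]
  have h9 : u ≤ (((J + 1) * p ^ (2 * J) + ⌈M / c⌉₊ : ℕ) : ℝ) * (v * ((p : ℝ) ^ (2 * j)) ^ α) := by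
    have h10 : v / c ≤ v / c * (M * ((p : ℝ) ^ (2 * j)) ^ α) :=
      le_mul_of_one_le_right (by positivity) h7
    have h11 : v / c * (M * ((p : ℝ) ^ (2 * j)) ^ α) =
        M / c * (v * ((p : ℝ) ^ (2 * j)) ^ α) := by ring
    have h12 : M / c * (v * ((p : ℝ) ^ (2 * j)) ^ α) ≤
        (((J + 1) * p ^ (2 * J) + ⌈M / c⌉₊ : ℕ) : ℝ) * (v * ((p : ℝ) ^ (2 * j)) ^ α) :=
      mul_le_mul_of_nonneg_right h2 (by positivity)
    linarith
  calc u * (n : ℝ) ^ α ≤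
      ((((J + 1) * p ^ (2 * J) + ⌈M / c⌉₊ : ℕ) : ℝ) * (v * ((p : ℝ) ^ (2 * j)) ^ α)) *
        (n : ℝ) ^ α := mul_le_mul_of_nonneg_right h9 h3.le
    _ = _ := by ring

open Classical in
/-- Comparison of the sums of monotone functions of the positive and of the negative coefficients. -/
theorem moments (l p : ℕ) (hp : p.Prime) (L : ℝ)
    (hL : L ^ 2 < 4 * (p : ℝ) ^ (2 * (l : ℤ) - 1)) (α : ℝ) :
    ∃ K : ℕ, 1 ≤ K ∧ ∀ (N : ℕ) (χ lam : ℕ → ℂ) (a : ℕ → ℝ), Hecke l N χ lam a → ¬ p ∣ N →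
      χ p ^ 2 = 1 → lam p = L → ∀ F : ℝ → ℝ, Monotone F → (∀ t, 0 ≤ F t) → ∀ x : ℕ,
      ∑ n ∈ Ioc 0 x, (if 0 < a n then F (|a n| * (n : ℝ) ^ α) else 0) ≤
        K * ∑ n ∈ Ioc 0 (K * x), (if a n < 0 then F (K * (|a n| * (n : ℝ) ^ α)) else 0) ∧
      ∑ n ∈ Ioc 0 x, (if a n < 0 then F (|a n| * (n : ℝ) ^ α) else 0) ≤
        K * ∑ n ∈ Ioc 0 (K * x), (if 0 < a n then F (K * (|a n| * (n : ℝ) ^ α)) else 0) := by
  have hC : 0 < (p : ℝ) ^ (2 * (l : ℤ) - 1) := by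
    have : (0 : ℝ) < p := by exact_mod_cast hp.pos
    positivity
  obtain ⟨J, c, hc, hJ⟩ := flip_quant hC hL
  obtain ⟨K, hK, hKp⟩ := Mc_pow (J := J) hp α hc
  have hK1 : 1 ≤ K := le_trans (Nat.mul_pos (by omega) (pow_pos hp.pos _)) hK
  refine ⟨K, hK1, ?_⟩
  intro N χ lam a ha hpN hχ hlam F hF hF0 x
  have hrec : ∀ n, 1 ≤ n → ∀ j, a (p ^ (2 * (j + 2)) * n) = L * a (p ^ (2 * (j + 1)) * n) -
      (p : ℝ) ^ (2 * (l : ℤ) - 1) * a (p ^ (2 * j) * n) := by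
    intro n hn j
    have h1 := rec_pow ha hp hpN hχ hn j
    rw [hlam, Complex.ofReal_re] at h1
    exact h1
  have hKJ : ∀ j ≤ J, p ^ (2 * j) ≤ K := fun j hj =>
    ((Nat.pow_le_pow_right hp.pos (by omega)).trans (Nat.le_mul_of_pos_left _ (by omega))).trans hK
  have hJK : (J : ℝ) + 1 ≤ K := by
    exact_mod_cast (Nat.le_mul_of_pos_right (J + 1) (pow_pos hp.pos (2 * J))).trans hK
  constructor
  · have h1 := sum_cover (A := {n | 0 < a n}) (B := {n | a n < 0}) (m := fun j => p ^ (2 * j))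
      (fun j => pow_pos hp.pos _) hKJ (f := fun n => F (|a n| * (n : ℝ) ^ α))
      (g := fun n => F (K * (|a n| * (n : ℝ) ^ α))) (fun n => hF0 _)
      (fun n hn hn1 => by
        have hn' : 0 < a n := hn
        obtain ⟨j, hj, h2⟩ := (hJ (fun j => a (p ^ (2 * j) * n)) (hrec n hn1)).1
          (by simpa using hn')
        have h3 : a (p ^ (2 * j) * n) ≤ - c * a n := by simpa using h2
        have h4 : a (p ^ (2 * j) * n) < 0 := by nlinarith
        refine ⟨j, hj, h4, ?_⟩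
        show F (|a n| * (n : ℝ) ^ α) ≤
          F (K * (|a (p ^ (2 * j) * n)| * ((p ^ (2 * j) * n : ℕ) : ℝ) ^ α))
        refine hF (hKp j n _ _ hj hn1 (abs_nonneg _) ?_)
        rw [abs_of_pos hn', abs_of_neg h4]
        linarith) x
    refine le_trans (le_of_eq ?_) (h1.trans (mul_le_mul_of_nonneg_right hJK ?_))
    · exact Finset.sum_congr rfl fun n _ => by congr
    · refine Finset.sum_nonneg fun n _ => ?_
      split_ifs
      · exact hF0 _
      · exact le_rfl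
  · have h1 := sum_cover (A := {n | a n < 0}) (B := {n | 0 < a n}) (m := fun j => p ^ (2 * j))
      (fun j => pow_pos hp.pos _) hKJ (f := fun n => F (|a n| * (n : ℝ) ^ α))
      (g := fun n => F (K * (|a n| * (n : ℝ) ^ α))) (fun n => hF0 _)
      (fun n hn hn1 => by
        have hn' : a n < 0 := hn
        obtain ⟨j, hj, h2⟩ := (hJ (fun j => a (p ^ (2 * j) * n)) (hrec n hn1)).2
          (by simpa using hn')
        have h3 : - c * a n ≤ a (p ^ (2 * j) * n) := by simpa using h2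
        have h4 : 0 < a (p ^ (2 * j) * n) := by nlinarith
        refine ⟨j, hj, h4, ?_⟩
        show F (|a n| * (n : ℝ) ^ α) ≤
          F (K * (|a (p ^ (2 * j) * n)| * ((p ^ (2 * j) * n : ℕ) : ℝ) ^ α))
        refine hF (hKp j n _ _ hj hn1 (abs_nonneg _) ?_)
        rw [abs_of_neg hn', abs_of_pos h4]
        linarith) x
    refine le_trans (le_of_eq ?_) (h1.trans (mul_le_mul_of_nonneg_right hJK ?_))
    · exact Finset.sum_congr rfl fun n _ => by congr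
    · refine Finset.sum_nonneg fun n _ => ?_
      split_ifs
      · exact hF0 _
      · exact le_rfl

end Pool.Agent.H.MP_656320_nt.MC
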