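import Pool.Agent.H.MP_656320_nt.MC.Mc

/-!
# Second moments over the positive and over the negative coefficients
-/

namespace Pool.Agent.H.MP_656320_nt.MC

open Finset Pool.Agent.H.MP_656320_nt

/-- If `f + g` has at least linear growth and `f x ≤ K³ g (K x)`, then `g` has linear growth. -/
theorem Md_lin {K : ℕ} (hK : 1 ≤ K) {f g : ℕ → ℝ} (hg : Monotone g) (hg0 : ∀ x, 0 ≤ g x)
    (h : ∀ x, f x ≤ (K : ℝ) ^ 3 * g (K * x)) {c : ℝ} (hc : 0 < c)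
    (hS : ∀ᶠ x : ℕ in Filter.atTop, c * x ≤ f x + g x) :
    ∀ᶠ x : ℕ in Filter.atTop, c * x ≤ 4 * (K : ℝ) ^ 4 * g x := by
  obtain ⟨x0, hx0⟩ := Filter.eventually_atTop.1 hS
  refine Filter.eventually_atTop.2 ⟨K * (x0 + 1), fun x hx => ?_⟩
  have hy : x0 + 1 ≤ x / K := (Nat.le_div_iff_mul_le (by omega)).2 (by rwa [mul_comm] at hx)
  have h1 := hx0 (x / K) (by omega)
  have h2 : K * (x / K) ≤ x := Nat.mul_div_le x K
  have h3 : x < K * (x / K + 1) := by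
    have := Nat.lt_mul_div_succ x (show 0 < K by omega)
    exact this
  have h4 : x ≤ 2 * K * (x / K) := by
    have h5 : K * (x / K + 1) ≤ K * (2 * (x / K)) := Nat.mul_le_mul_left K (by omega)
    have h6 : K * (2 * (x / K)) = 2 * K * (x / K) := by ring
    omega
  have h4' : (x : ℝ) ≤ 2 * K * ((x / K : ℕ) : ℝ) := by exact_mod_cast h4
  have hKr : (1 : ℝ) ≤ K := by exact_mod_cast hK
  have h5 : g (K * (x / K)) ≤ g x := hg h2
  have h6 : g (x / K) ≤ g x := hg ((Nat.div_le_self x K))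
  have h7 := h (x / K)
  have h8 : (K : ℝ) ^ 3 * g (K * (x / K)) ≤ (K : ℝ) ^ 3 * g x :=
    mul_le_mul_of_nonneg_left h5 (by positivity)
  have h9 : g x ≤ (K : ℝ) ^ 3 * g x := le_mul_of_one_le_left (hg0 x) (one_le_pow₀ hKr)
  have h10 : c * ((x / K : ℕ) : ℝ) ≤ 2 * ((K : ℝ) ^ 3 * g x) := by linarith
  calc c * (x : ℝ) ≤ c * (2 * K * ((x / K : ℕ) : ℝ)) := mul_le_mul_of_nonneg_left h4' hc.le
    _ = 2 * K * (c * ((x / K : ℕ) : ℝ)) := by ring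
    _ ≤ 2 * K * (2 * ((K : ℝ) ^ 3 * g x)) := mul_le_mul_of_nonneg_left h10 (by positivity)
    _ = 4 * (K : ℝ) ^ 4 * g x := by ring

private theorem Md_mono (F : ℕ → ℝ) (hF : ∀ n, 0 ≤ F n) :
    Monotone fun x => ∑ n ∈ Ioc 0 x, F n := fun x y h =>
  Finset.sum_le_sum_of_subset_of_nonneg (Finset.Ioc_subset_Ioc_right h) fun n _ _ => hF n

open Classical in
/-- Both signs carry a positive proportion of the second moment. -/
theorem energy {K : ℕ} (hK : 1 ≤ K) {a : ℕ → ℝ} {α : ℝ}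
    (h : ∀ F : ℝ → ℝ, Monotone F → (∀ t, 0 ≤ F t) → ∀ x : ℕ,
      ∑ n ∈ Ioc 0 x, (if 0 < a n then F (|a n| * (n : ℝ) ^ α) else 0) ≤
        K * ∑ n ∈ Ioc 0 (K * x), (if a n < 0 then F (K * (|a n| * (n : ℝ) ^ α)) else 0) ∧
      ∑ n ∈ Ioc 0 x, (if a n < 0 then F (|a n| * (n : ℝ) ^ α) else 0) ≤
        K * ∑ n ∈ Ioc 0 (K * x), (if 0 < a n then F (K * (|a n| * (n : ℝ) ^ α)) else 0))
    {c : ℝ} (hc : 0 < c)
    (hS : ∀ᶠ x : ℕ in Filter.atTop, c * x ≤ ∑ n ∈ Ioc 0 x, (a n * (n : ℝ) ^ α) ^ 2) :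
    ∀ᶠ x : ℕ in Filter.atTop,
      c * x ≤ 4 * (K : ℝ) ^ 4 * ∑ n ∈ Ioc 0 x, (if 0 < a n then (a n * (n : ℝ) ^ α) ^ 2 else 0) ∧
      c * x ≤ 4 * (K : ℝ) ^ 4 *
        ∑ n ∈ Ioc 0 x, (if a n < 0 then (a n * (n : ℝ) ^ α) ^ 2 else 0) := by
  have hF : Monotone fun t : ℝ => (max t 0) ^ 2 := fun s t hst =>
    pow_le_pow_left₀ (le_max_right _ _) (max_le_max hst le_rfl) 2
  have h0 := h _ hF fun t => by positivity
  have e1 : ∀ n : ℕ, (max (|a n| * (n : ℝ) ^ α) 0) ^ 2 = (a n * (n : ℝ) ^ α) ^ 2 := fun n => by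
    rw [max_eq_left (by positivity), mul_pow, mul_pow, sq_abs]
  have e2 : ∀ n : ℕ, (max (K * (|a n| * (n : ℝ) ^ α)) 0) ^ 2 =
      (K : ℝ) ^ 2 * (a n * (n : ℝ) ^ α) ^ 2 := fun n => by
    rw [max_eq_left (by positivity), mul_pow, mul_pow, mul_pow, sq_abs]
  have hp : ∀ x : ℕ, ∑ n ∈ Ioc 0 x, (if 0 < a n then (a n * (n : ℝ) ^ α) ^ 2 else 0) ≤
      (K : ℝ) ^ 3 * ∑ n ∈ Ioc 0 (K * x), (if a n < 0 then (a n * (n : ℝ) ^ α) ^ 2 else 0) := by
    intro x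
    have h1 := (h0 x).1
    simp only [e1, e2] at h1
    refine h1.trans (le_of_eq ?_)
    rw [Finset.mul_sum, Finset.mul_sum]
    refine Finset.sum_congr rfl fun n _ => ?_
    split_ifs
    · ring
    · ring
  have hm : ∀ x : ℕ, ∑ n ∈ Ioc 0 x, (if a n < 0 then (a n * (n : ℝ) ^ α) ^ 2 else 0) ≤
      (K : ℝ) ^ 3 * ∑ n ∈ Ioc 0 (K * x), (if 0 < a n then (a n * (n : ℝ) ^ α) ^ 2 else 0) := by
    intro x
    have h1 := (h0 x).2
    simp only [e1, e2] at h1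
    refine h1.trans (le_of_eq ?_)
    rw [Finset.mul_sum, Finset.mul_sum]
    refine Finset.sum_congr rfl fun n _ => ?_
    split_ifs
    · ring
    · ring
  have hsum : ∀ x : ℕ, ∑ n ∈ Ioc 0 x, (a n * (n : ℝ) ^ α) ^ 2 =
      ∑ n ∈ Ioc 0 x, (if 0 < a n then (a n * (n : ℝ) ^ α) ^ 2 else 0) +
      ∑ n ∈ Ioc 0 x, (if a n < 0 then (a n * (n : ℝ) ^ α) ^ 2 else 0) := by
    intro x
    rw [← Finset.sum_add_distrib]
    refine Finset.sum_congr rfl fun n _ => ?_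
    rcases lt_trichotomy (a n) 0 with h1 | h1 | h1
    · rw [if_neg (not_lt.2 h1.le), if_pos h1, zero_add]
    · rw [if_neg (by rw [h1]; exact lt_irrefl _), if_neg (by rw [h1]; exact lt_irrefl _), h1]
      simp
    · rw [if_pos h1, if_neg (not_lt.2 h1.le), add_zero]
  have hpos : ∀ n : ℕ, 0 ≤ (if 0 < a n then (a n * (n : ℝ) ^ α) ^ 2 else 0) := fun n => by
    split_ifs <;> positivity
  have hneg : ∀ n : ℕ, 0 ≤ (if a n < 0 then (a n * (n : ℝ) ^ α) ^ 2 else 0) := fun n => by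
    split_ifs <;> positivity
  have r1 := Md_lin hK (Md_mono _ hneg) (fun x => Finset.sum_nonneg fun n _ => hneg n) hp hc
    (hS.mono fun x hx => by rw [hsum] at hx; exact hx)
  have r2 := Md_lin hK (Md_mono _ hpos) (fun x => Finset.sum_nonneg fun n _ => hpos n) hm hc
    (hS.mono fun x hx => by rw [hsum, add_comm] at hx; exact hx)
  filter_upwards [r1, r2] with x h1 h2
  exact ⟨h2, h1⟩

end Pool.Agent.H.MP_656320_nt.MC
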