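import Pool.Agent.H.MP_656320_nt.Cmq

/-!
# The numbers of the positive and of the negative coefficients are comparable
-/

namespace Pool.Agent.H.MP_656320_nt.MC

open Pool.Agent.H.MP_656320_nt

/-- **Comparability of the numbers of positive and of negative coefficients.** -/
theorem counts (l p : ℕ) (hp : p.Prime) (L : ℝ) (hL : L ^ 2 < 4 * (p : ℝ) ^ (2 * (l : ℤ) - 1)) :
    ∃ K : ℕ, 1 ≤ K ∧ ∀ (N : ℕ) (χ lam : ℕ → ℂ) (a : ℕ → ℝ), Hecke l N χ lam a → ¬ p ∣ N →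
      χ p ^ 2 = 1 → lam p = L →
      (∀ x, cnt {n | 0 < a n} x ≤ K * cnt {n | a n < 0} (K * x) ∧
        cnt {n | a n < 0} x ≤ K * cnt {n | 0 < a n} (K * x)) ∧
      [LPos {n | 0 < a n}, LPos {n | a n < 0}, LPos {n | a n ≠ 0},
        LPos {n | n ∈ Sf N ∧ a n ≠ 0}].TFAE ∧
      [UPos {n | 0 < a n}, UPos {n | a n < 0}, UPos {n | a n ≠ 0},
        UPos {n | n ∈ Sf N ∧ a n ≠ 0}].TFAE := by
  have hC : 0 < (p : ℝ) ^ (2 * (l : ℤ) - 1) := by
    have : (0 : ℝ) < p := by exact_mod_cast hp.pos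
    positivity
  obtain ⟨J, hJ⟩ := flip hC hL
  refine ⟨(J + 1) * p ^ (2 * J), Nat.mul_pos (by omega) (pow_pos hp.pos _), ?_⟩
  intro N χ lam a ha hpN hχ hlam
  have hrec : ∀ n, 1 ≤ n → ∀ j, a (p ^ (2 * (j + 2)) * n) = L * a (p ^ (2 * (j + 1)) * n) -
      (p : ℝ) ^ (2 * (l : ℤ) - 1) * a (p ^ (2 * j) * n) := by
    intro n hn j
    have h1 := rec_pow ha hp hpN hχ hn j
    rw [hlam, Complex.ofReal_re] at h1
    exact h1
  have hKJ : ∀ j ≤ J, p ^ (2 * j) ≤ (J + 1) * p ^ (2 * J) := fun j hj =>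
    (Nat.pow_le_pow_right hp.pos (by omega)).trans (Nat.le_mul_of_pos_left _ (by omega))
  have hJK : J + 1 ≤ (J + 1) * p ^ (2 * J) := Nat.le_mul_of_pos_right _ (pow_pos hp.pos _)
  have hPM : ∀ x, cnt {n | 0 < a n} x ≤
      ((J + 1) * p ^ (2 * J)) * cnt {n | a n < 0} ((J + 1) * p ^ (2 * J) * x) := by
    intro x
    refine (cnt_cover (m := fun j => p ^ (2 * j)) (fun j => pow_pos hp.pos _) hKJ
      (fun n hn hn1 => ?_) x).trans (Nat.mul_le_mul_right _ hJK)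
    have h1 := (hJ (fun j => a (p ^ (2 * j) * n)) (hrec n hn1)).1
    exact h1 (by simpa using hn)
  have hMP : ∀ x, cnt {n | a n < 0} x ≤
      ((J + 1) * p ^ (2 * J)) * cnt {n | 0 < a n} ((J + 1) * p ^ (2 * J) * x) := by
    intro x
    refine (cnt_cover (m := fun j => p ^ (2 * j)) (fun j => pow_pos hp.pos _) hKJ
      (fun n hn hn1 => ?_) x).trans (Nat.mul_le_mul_right _ hJK)
    have h1 := (hJ (fun j => a (p ^ (2 * j) * n)) (hrec n hn1)).2
    exact h1 (by simpa using hn)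
  have hK1 : 1 ≤ (J + 1) * p ^ (2 * J) := Nat.mul_pos (by omega) (pow_pos hp.pos _)
  generalize (J + 1) * p ^ (2 * J) = K at hPM hMP hK1
  -- all coefficients which are not zero
  have hNM : ∀ x, cnt {n | a n ≠ 0} x ≤ (K + 1) * cnt {n | a n < 0} ((K + 1) * x) := by
    intro x
    have h1 : cnt {n | a n ≠ 0} x ≤ cnt {n | 0 < a n} x + cnt {n | a n < 0} x := by
      refine (Set.ncard_le_ncard (fun n hn => ?_) ((cnt_fin _ x).union (cnt_fin _ x))).trans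
        (Set.ncard_union_le _ _)
      rcases lt_or_gt_of_ne (show a n ≠ 0 from hn.2.2) with h | h
      · exact Or.inr ⟨hn.1, hn.2.1, h⟩
      · exact Or.inl ⟨hn.1, hn.2.1, h⟩
    have h2 : cnt {n | a n < 0} (K * x) ≤ cnt {n | a n < 0} ((K + 1) * x) :=
      cnt_mono subset_rfl (Nat.mul_le_mul_right x (Nat.le_succ K))
    have h3 : cnt {n | a n < 0} x ≤ cnt {n | a n < 0} ((K + 1) * x) :=
      cnt_mono subset_rfl (Nat.le_mul_of_pos_left x (Nat.succ_pos K))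
    have h4 := hPM x
    have h5 : K * cnt {n | a n < 0} (K * x) ≤ K * cnt {n | a n < 0} ((K + 1) * x) :=
      Nat.mul_le_mul_left K h2
    have h6 : (K + 1) * cnt {n | a n < 0} ((K + 1) * x) =
        K * cnt {n | a n < 0} ((K + 1) * x) + cnt {n | a n < 0} ((K + 1) * x) := by ring
    omega
  have hsub : {n | n ∈ Sf N ∧ a n ≠ 0} ⊆ {n | a n ≠ 0} := fun n hn => hn.2
  refine ⟨fun x => ⟨hPM x, hMP x⟩, ?_, ?_⟩
  · tfae_have 1 → 2 := LPos.tr hK1 hPM
    tfae_have 2 → 1 := LPos.tr hK1 hMP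
    tfae_have 2 → 3 := LPos.mono fun n hn => ne_of_lt hn
    tfae_have 3 → 2 := LPos.tr (Nat.succ_pos K) hNM
    tfae_have 3 → 4 := LPos.sf ha
    tfae_have 4 → 3 := LPos.mono hsub
    tfae_finish
  · tfae_have 1 → 2 := UPos.tr hK1 hPM
    tfae_have 2 → 1 := UPos.tr hK1 hMP
    tfae_have 2 → 3 := UPos.mono fun n hn => ne_of_lt hn
    tfae_have 3 → 2 := UPos.tr (Nat.succ_pos K) hNM
    tfae_have 3 → 4 := UPos.sf ha
    tfae_have 4 → 3 := UPos.mono hsub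
    tfae_finish

end Pool.Agent.H.MP_656320_nt.MC
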